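import Mathlib
import Pool.Agent.Q76.VectorPolar
import Pool.Agent.Q76.HausdorffDensity

/-!
# Absolute continuity of `|𝓑u| ⌞ J_u` for first-order operators (MP_06111c_an)

For every first-order homogeneous constant-coefficient operator `𝓑[D] = ∑ B_j ∂_j` (elliptic or
not), every open `Ω` and every `u ∈ BV^𝓑(Ω)` the restriction of `|𝓑u|` to the jump set `J_u` is
absolutely continuous with respect to `ℋ^{n-1}`.
-/

namespace Pool.Agent.Results.MP_06111c_an.JumpPartAbsCont

open MeasureTheory Filter Topology Set Metric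
open scoped ENNReal NNReal ContDiff

variable {n : ℕ} {V W : Type*} [NormedAddCommGroup V] [InnerProductSpace ℝ V]
  [FiniteDimensional ℝ V] [NormedAddCommGroup W] [InnerProductSpace ℝ W] [FiniteDimensional ℝ W]

/-- `μ` is the distributional derivative `𝓑[D]u = ∑ B_j ∂_j u` of `u` on `Ω`: for every scalar
test function `φ ∈ C_c^∞(Ω)`, `∫ φ dμ = - ∫_Ω ∑_j ∂_jφ(x) B_j u(x) dx`. -/
def IsDerivative (B : Fin n → V →ₗ[ℝ] W) (Ω : Set (EuclideanSpace ℝ (Fin n)))
    (u : EuclideanSpace ℝ (Fin n) → V) (μ : VectorMeasure (EuclideanSpace ℝ (Fin n)) W) : Prop :=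
  ∀ φ : EuclideanSpace ℝ (Fin n) → ℝ, ContDiff ℝ ∞ φ → HasCompactSupport φ → tsupport φ ⊆ Ω →
    ∫ᵛ x, φ x ∂•μ =
      -∫ x in Ω, ∑ j, (fderiv ℝ φ x (EuclideanSpace.single j 1)) • B j (u x)

/-- The jump set `J_u`: points `x ∈ Ω` with two distinct one-sided `L¹`-limits `a ≠ b` on the two
half balls `B_r^±(x, ν)`. -/
def jumpSet (Ω : Set (EuclideanSpace ℝ (Fin n))) (u : EuclideanSpace ℝ (Fin n) → V) :
    Set (EuclideanSpace ℝ (Fin n)) :=
  {x | x ∈ Ω ∧ ∃ a b : V, a ≠ b ∧ ∃ ν : EuclideanSpace ℝ (Fin n), ‖ν‖ = 1 ∧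
    Tendsto (fun r : ℝ => (1 / r ^ n) *
      ∫ y in {y | y ∈ ball x r ∧ 0 < inner ℝ (y - x) ν}, ‖u y - a‖) (𝓝[>] 0) (𝓝 0) ∧
    Tendsto (fun r : ℝ => (1 / r ^ n) *
      ∫ y in {y | y ∈ ball x r ∧ inner ℝ (y - x) ν < 0}, ‖u y - b‖) (𝓝[>] 0) (𝓝 0)}

/-- Test functions with a uniform gradient bound. -/
lemma exists_testFunction (n : ℕ) : ∃ C : ℝ≥0, ∀ (x : EuclideanSpace ℝ (Fin n)) (r : ℝ), 0 < r →
    ∃ φ : EuclideanSpace ℝ (Fin n) → ℝ, ContDiff ℝ ∞ φ ∧ HasCompactSupport φ ∧
      tsupport φ ⊆ closedBall x r ∧ (∀ y, 0 ≤ φ y) ∧ (∀ y, φ y ≤ 1) ∧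
      (∀ y ∈ closedBall x (r / 2), φ y = 1) ∧ ∀ y, ‖fderiv ℝ φ y‖ ≤ C / r := by
  let f : ContDiffBump (0 : EuclideanSpace ℝ (Fin n)) := ⟨1 / 2, 1, by norm_num, by norm_num⟩
  obtain ⟨C, hC⟩ := ContDiff.lipschitzWith_of_hasCompactSupport (𝕂 := ℝ) (n := ∞)
    f.hasCompactSupport f.contDiff (by simp)
  refine ⟨C, fun x r hr => ?_⟩
  have hsupp : tsupport (fun y => f (r⁻¹ • (y - x))) ⊆ closedBall x r := by
    apply closure_minimal _ isClosed_closedBall
    intro y hy
    have h1 : r⁻¹ • (y - x) ∈ Function.support f := hy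
    rw [f.support_eq, mem_ball_zero_iff, norm_smul, norm_inv, Real.norm_of_nonneg hr.le,
      inv_mul_lt_iff₀ hr] at h1
    rw [mem_closedBall, dist_eq_norm]
    have : r * f.rOut = r := by simp [f]
    linarith
  refine ⟨fun y => f (r⁻¹ • (y - x)), ?_, ?_, hsupp, fun y => f.nonneg, fun y => f.le_one,
    ?_, ?_⟩
  · have h1 : ContDiff ℝ ∞ (fun y : EuclideanSpace ℝ (Fin n) => r⁻¹ • (y - x)) :=
      (contDiff_id.sub contDiff_const).const_smul r⁻¹
    exact f.contDiff.comp h1
  · exact IsCompact.of_isClosed_subset (isCompact_closedBall x r) (isClosed_tsupport _) hsupp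
  · intro y hy
    apply f.one_of_mem_closedBall
    rw [mem_closedBall_zero_iff, norm_smul, norm_inv, Real.norm_of_nonneg hr.le,
      inv_mul_le_iff₀ hr]
    rw [mem_closedBall, dist_eq_norm] at hy
    have : r * f.rIn = r / 2 := by simp [f]; ring
    exact hy.trans (le_of_eq this.symm)
  · intro y
    have hl : LipschitzWith (C * (Real.toNNReal r⁻¹)) (fun y => f (r⁻¹ • (y - x))) := by
      apply LipschitzWith.of_dist_le_mul
      intro a b
      refine (hC.dist_le_mul _ _).trans ?_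
      rw [dist_eq_norm, ← smul_sub, norm_smul, norm_inv, Real.norm_of_nonneg hr.le, NNReal.coe_mul,
        Real.coe_toNNReal _ (by positivity), dist_eq_norm, sub_sub_sub_cancel_right, mul_assoc]
    have := norm_fderiv_le_of_lipschitz ℝ hl (x₀ := y)
    rwa [NNReal.coe_mul, Real.coe_toNNReal _ (by positivity), ← div_eq_mul_inv] at this

/-- Hyperplanes are null. -/
lemma volume_hyperplane (x ν : EuclideanSpace ℝ (Fin n)) (hν : ‖ν‖ = 1) :
    volume {y : EuclideanSpace ℝ (Fin n) | inner ℝ (y - x) ν = 0} = 0 := by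
  have h1 : volume (((ℝ ∙ ν)ᗮ : Submodule ℝ (EuclideanSpace ℝ (Fin n))) :
      Set (EuclideanSpace ℝ (Fin n))) = 0 := by
    apply Measure.addHaar_submodule
    intro htop
    have h2 : ν ∈ (ℝ ∙ ν)ᗮ := by rw [htop]; trivial
    rw [Submodule.mem_orthogonal_singleton_iff_inner_left, real_inner_self_eq_norm_sq, hν] at h2
    norm_num at h2
  have h2 : {y : EuclideanSpace ℝ (Fin n) | inner ℝ (y - x) ν = 0} =
      (fun y => y - x) ⁻¹' (((ℝ ∙ ν)ᗮ : Submodule ℝ (EuclideanSpace ℝ (Fin n))) :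
      Set (EuclideanSpace ℝ (Fin n))) := by
    ext y
    simp only [mem_ofPred_eq, mem_preimage, SetLike.mem_coe]
    rw [Submodule.mem_orthogonal_singleton_iff_inner_left]
  have h3 : (fun y : EuclideanSpace ℝ (Fin n) => y - x) = fun y => y + -x := by
    funext y; rw [sub_eq_add_neg]
  rw [h2, h3, measure_preimage_add_right, h1]

omit [InnerProductSpace ℝ V] [FiniteDimensional ℝ V] in
/-- At a jump point the `L¹` norm on balls is `O(r^n)`. -/
lemma jump_bound {Ω : Set (EuclideanSpace ℝ (Fin n))} (hΩ : IsOpen Ω)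
    {u : EuclideanSpace ℝ (Fin n) → V} (hu : IntegrableOn u Ω) {x : EuclideanSpace ℝ (Fin n)}
    (hx : x ∈ jumpSet Ω u) :
    ∃ C r₀ : ℝ, 0 ≤ C ∧ 0 < r₀ ∧ closedBall x r₀ ⊆ Ω ∧
      ∀ r, 0 < r → r ≤ r₀ → ∫ y in closedBall x r, ‖u y‖ ≤ C * r ^ n := by
  obtain ⟨hxΩ, a, b, -, ν, hν, ha, hb⟩ := hx
  obtain ⟨ρ, hρ, hρΩ⟩ := Metric.isOpen_iff.mp hΩ x hxΩ
  have ha' := ha.eventually (gt_mem_nhds (zero_lt_one))
  have hb' := hb.eventually (gt_mem_nhds (zero_lt_one))
  obtain ⟨δ, hδ, hδ'⟩ := (mem_nhdsGT_iff_exists_Ioo_subset' (zero_lt_one' ℝ)).mp (ha'.and hb')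
  rw [mem_Ioi] at hδ
  set r₁ := min δ ρ with hr₁
  have hr₁0 : 0 < r₁ := lt_min hδ hρ
  have hball : ∀ r, 0 < r → r < r₁ → ∫ y in ball x r, ‖u y‖ ≤
      (2 + (‖a‖ + ‖b‖) * (volume (ball (0 : EuclideanSpace ℝ (Fin n)) 1)).toReal) * r ^ n := by
    intro r hr hrr
    have hrn : 0 < r ^ n := by positivity
    have hmem : r ∈ Ioo 0 δ := ⟨hr, hrr.trans_le (min_le_left _ _)⟩
    obtain ⟨h1, h2⟩ := hδ' hmem
    rw [one_div, inv_mul_lt_iff₀ hrn, mul_one] at h1 h2
    have hsubΩ : ball x r ⊆ Ω := (ball_subset_ball (hrr.le.trans (min_le_right _ _))).trans hρΩ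
    have hui : IntegrableOn u (ball x r) := hu.mono_set hsubΩ
    set P := {y | y ∈ ball x r ∧ 0 < inner ℝ (y - x) ν} with hP
    set N := {y | y ∈ ball x r ∧ inner ℝ (y - x) ν < 0} with hN
    have hcont : Continuous fun y : EuclideanSpace ℝ (Fin n) => (inner ℝ (y - x) ν : ℝ) :=
      (continuous_id.sub continuous_const).inner continuous_const
    have hPm : MeasurableSet P :=
      (isOpen_ball.inter (isOpen_lt continuous_const hcont)).measurableSet
    have hNm : MeasurableSet N :=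
      (isOpen_ball.inter (isOpen_lt hcont continuous_const)).measurableSet
    have hPs : P ⊆ ball x r := fun y hy => hy.1
    have hNs : N ⊆ ball x r := fun y hy => hy.1
    have hvol : volume (ball x r) = ENNReal.ofReal (r ^ n) *
        volume (ball (0 : EuclideanSpace ℝ (Fin n)) 1) := by
      have := Measure.addHaar_ball_of_pos (volume : Measure (EuclideanSpace ℝ (Fin n))) x hr
      rwa [finrank_euclideanSpace_fin] at this
    have hvolr : volume.real (ball x r) =
        r ^ n * (volume (ball (0 : EuclideanSpace ℝ (Fin n)) 1)).toReal := by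
      rw [measureReal_def, hvol, ENNReal.toReal_mul, ENNReal.toReal_ofReal hrn.le]
    have hfin : volume (ball x r) < ⊤ := measure_ball_lt_top
    have hdisj : Disjoint P N := by
      rw [Set.disjoint_left]
      intro y hy hy'
      exact absurd hy.2 (not_lt.mpr hy'.2.le)
    have hae : (ball x r : Set (EuclideanSpace ℝ (Fin n))) =ᵐ[volume] (P ∪ N : Set _) := by
      have hz := measure_eq_zero_iff_ae_notMem.mp (volume_hyperplane x ν hν)
      filter_upwards [hz] with y hy
      apply propext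
      constructor
      · intro hyb
        rcases lt_trichotomy (inner ℝ (y - x) ν : ℝ) 0 with h | h | h
        · exact Or.inr ⟨hyb, h⟩
        · exact absurd h hy
        · exact Or.inl ⟨hyb, h⟩
      · rintro (h | h)
        · exact h.1
        · exact h.1
    rw [setIntegral_congr_set hae, setIntegral_union hdisj hNm (hui.mono_set hPs).norm
      (hui.mono_set hNs).norm]
    have hside : ∀ (S : Set (EuclideanSpace ℝ (Fin n))) (c : V), MeasurableSet S → S ⊆ ball x r →
        ∫ y in S, ‖u y - c‖ < r ^ n → ∫ y in S, ‖u y‖ ≤ r ^ n + ‖c‖ * volume.real (ball x r) := by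
      intro S c hSm hSs hlt
      have hcS : IntegrableOn (fun _ : EuclideanSpace ℝ (Fin n) => c) S :=
        integrableOn_const (measure_mono hSs |>.trans_lt hfin).ne
      have h3 : ∫ y in S, ‖u y‖ ≤ ∫ y in S, (‖u y - c‖ + ‖c‖) := by
        apply setIntegral_mono
        · exact (hui.mono_set hSs).norm
        · exact ((hui.mono_set hSs).sub hcS).norm.add hcS.norm
        · intro y
          have := norm_add_le (u y - c) c
          simpa using this
      have h4 : ∫ y in S, (‖u y - c‖ + ‖c‖) = (∫ y in S, ‖u y - c‖) + ∫ _ in S, ‖c‖ :=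
        integral_add ((hui.mono_set hSs).sub hcS).norm hcS.norm
      have h5 : ∫ _ in S, ‖c‖ ≤ ‖c‖ * volume.real (ball x r) := by
        rw [setIntegral_const, smul_eq_mul, mul_comm]
        gcongr
        exact hfin.ne
      linarith
    have i1 := hside P a hPm hPs h1
    have i2 := hside N b hNm hNs h2
    rw [hvolr] at i1 i2
    nlinarith
  refine ⟨(2 + (‖a‖ + ‖b‖) * (volume (ball (0 : EuclideanSpace ℝ (Fin n)) 1)).toReal) * 2 ^ n,
    r₁ / 4, by positivity, by positivity, ?_, ?_⟩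
  · refine (closedBall_subset_ball ?_).trans hρΩ
    have : r₁ ≤ ρ := min_le_right _ _
    linarith
  · intro r hr hrr
    have h1 := hball (2 * r) (by positivity) (by linarith)
    have hsubΩ : ball x (2 * r) ⊆ Ω := by
      refine (ball_subset_ball ?_).trans hρΩ
      have : r₁ ≤ ρ := min_le_right _ _
      linarith
    calc ∫ y in closedBall x r, ‖u y‖ ≤ ∫ y in ball x (2 * r), ‖u y‖ := by
          apply setIntegral_mono_set (hu.mono_set hsubΩ).norm
          · exact Eventually.of_forall fun y => norm_nonneg _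
          · exact (closedBall_subset_ball (by linarith)).eventuallyLE
      _ ≤ _ := h1
      _ = _ := by rw [mul_pow]; ring

omit [FiniteDimensional ℝ W] in
/-- The derivative tested with a cut-off function on a ball. -/
lemma test_bound {B : Fin n → V →ₗ[ℝ] W} {Ω : Set (EuclideanSpace ℝ (Fin n))} (hΩ : IsOpen Ω)
    {u : EuclideanSpace ℝ (Fin n) → V} (hu : IntegrableOn u Ω)
    {x : EuclideanSpace ℝ (Fin n)} {r c : ℝ} (hc : 0 ≤ c)
    (hxr : closedBall x r ⊆ Ω) {φ : EuclideanSpace ℝ (Fin n) → ℝ}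
    (hφ : tsupport φ ⊆ closedBall x r) (hφ' : ∀ y, ‖fderiv ℝ φ y‖ ≤ c) :
    ‖∫ x in Ω, ∑ j, (fderiv ℝ φ x (EuclideanSpace.single j 1)) • B j (u x)‖ ≤
      c * (∑ j, ‖(B j).toContinuousLinearMap‖) * ∫ y in closedBall x r, ‖u y‖ := by
  set K := ∑ j, ‖(B j).toContinuousLinearMap‖ with hK
  have hK0 : 0 ≤ K := Finset.sum_nonneg fun j _ => norm_nonneg _
  have hpt : ∀ y, ‖∑ j, (fderiv ℝ φ y (EuclideanSpace.single j 1)) • B j (u y)‖ ≤
      c * K * ‖u y‖ := by
    intro y
    refine (norm_sum_le _ _).trans ?_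
    rw [hK, Finset.mul_sum, Finset.sum_mul]
    apply Finset.sum_le_sum
    intro j _
    rw [norm_smul]
    have h1 : ‖fderiv ℝ φ y (EuclideanSpace.single j 1)‖ ≤ c := by
      refine ((fderiv ℝ φ y).le_opNorm _).trans ?_
      rw [PiLp.norm_single, norm_one, mul_one]
      exact hφ' y
    have h2 : ‖B j (u y)‖ ≤ ‖(B j).toContinuousLinearMap‖ * ‖u y‖ :=
      (B j).toContinuousLinearMap.le_opNorm (u y)
    calc _ ≤ c * (‖(B j).toContinuousLinearMap‖ * ‖u y‖) := by gcongr
      _ = _ := by ring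
  have hz : ∀ y, y ∉ closedBall x r →
      ∑ j, (fderiv ℝ φ y (EuclideanSpace.single j 1)) • B j (u y) = 0 := by
    intro y hy
    have h1 : fderiv ℝ φ y = 0 := by
      have h2 : y ∉ tsupport (fderiv ℝ φ) := fun h => hy (hφ (tsupport_fderiv_subset ℝ h))
      exact image_eq_zero_of_notMem_tsupport h2
    simp [h1]
  have h1 : ∫ x in Ω, ∑ j, (fderiv ℝ φ x (EuclideanSpace.single j 1)) • B j (u x) =
      ∫ x in closedBall x r, ∑ j, (fderiv ℝ φ x (EuclideanSpace.single j 1)) • B j (u x) := by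
    exact setIntegral_eq_of_subset_of_forall_sdiff_eq_zero hΩ.measurableSet hxr
      fun y hy => hz y hy.2
  rw [h1]
  calc _ ≤ ∫ y in closedBall x r, c * K * ‖u y‖ := by
        apply norm_integral_le_of_norm_le
        · exact (hu.mono_set hxr).norm.const_mul _
        · exact Eventually.of_forall hpt
    _ = _ := by rw [integral_const_mul]

/-- The main density estimate: at `|𝓑u|`-almost every point the bound `∫_{B_r} |u| ≤ C r^n`
implies `|𝓑u|(B_r) ≤ K r^{n-1}` for small `r`. -/
lemma density_bound {B : Fin n → V →ₗ[ℝ] W} {Ω : Set (EuclideanSpace ℝ (Fin n))} (hΩ : IsOpen Ω)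
    {u : EuclideanSpace ℝ (Fin n) → V} (hu : IntegrableOn u Ω)
    {μ : VectorMeasure (EuclideanSpace ℝ (Fin n)) W} [IsFiniteMeasure μ.variation]
    (hμ : IsDerivative B Ω u μ) (hn : 1 ≤ n) :
    ∀ᵐ x ∂μ.variation, (∃ C r₀ : ℝ, 0 ≤ C ∧ 0 < r₀ ∧ closedBall x r₀ ⊆ Ω ∧
      ∀ r, 0 < r → r ≤ r₀ → ∫ y in closedBall x r, ‖u y‖ ≤ C * r ^ n) →
      ∃ K δ : ℝ, 0 < δ ∧
        ∀ r, 0 < r → r ≤ δ → μ.variation.real (closedBall x r) ≤ K * r ^ (n - 1) := by
  obtain ⟨C₁, hC₁⟩ := exists_testFunction n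
  obtain ⟨σ, hσ, hσ1, hσμ⟩ := Q76.VectorPolar.exists_polar μ
  set m := μ.variation with hm
  set L := ∑ j, ‖(B j).toContinuousLinearMap‖ with hL
  have hL0 : 0 ≤ L := Finset.sum_nonneg fun j _ => norm_nonneg _
  filter_upwards [(Besicovitch.vitaliFamily m).ae_tendsto_average_norm_sub hσ.locallyIntegrable,
    hσ1] with x hx hx1
  rintro ⟨C, r₀, hC, hr₀, hxΩ, hxr⟩
  have havg : Tendsto (fun r : ℝ => ⨍ y in closedBall x r, ‖σ y - σ x‖ ∂m) (𝓝[>] 0) (𝓝 0) :=
    hx.comp (Besicovitch.tendsto_filterAt m x)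
  have hev := havg.eventually (gt_mem_nhds (show (0 : ℝ) < (1 / 2) ^ (n - 1 + 1) by positivity))
  obtain ⟨δ, hδ, hδ'⟩ := (mem_nhdsGT_iff_exists_Ioo_subset' (zero_lt_one' ℝ)).mp hev
  rw [mem_Ioi] at hδ
  have hmono : Monotone fun r : ℝ => m.real (closedBall x r) := by
    intro r s hrs
    exact measureReal_mono (closedBall_subset_closedBall hrs)
  obtain ⟨K, hK⟩ := Q76.HausdorffDensity.decay_iteration hmono (n - 1)
    (C := C₁ * L * C) (r₀ := min (δ / 2) r₀) (by positivity) (by positivity) (by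
    intro r hr hrr
    have hrδ : r ∈ Ioo 0 δ := ⟨hr, by
      have := hrr.trans (min_le_left _ _)
      linarith⟩
    have hrr0 : r ≤ r₀ := hrr.trans (min_le_right _ _)
    obtain ⟨φ, hφs, hφc, hφt, hφ0, hφ1, hφe, hφd⟩ := hC₁ x r hr
    have hrΩ : closedBall x r ⊆ Ω := (closedBall_subset_closedBall hrr0).trans hxΩ
    have h1 := hμ φ hφs hφc (hφt.trans hrΩ)
    have hφi : Integrable φ m := by
      refine Integrable.of_bound (C := 1) hφs.continuous.aestronglyMeasurable ?_
      refine Eventually.of_forall fun y => ?_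
      rw [Real.norm_of_nonneg (hφ0 y)]
      exact hφ1 y
    rw [Q76.VectorPolar.integral_eq_of_polar μ hσ hσ1 hσμ hφi] at h1
    have h2 : ‖∫ y, φ y • σ y ∂m‖ ≤ C₁ * L * C * r ^ (n - 1) := by
      rw [h1, norm_neg]
      refine (test_bound hΩ hu (c := C₁ / r) (by positivity) hrΩ hφt hφd).trans ?_
      have h3 := hxr r hr hrr0
      have h4 : r ^ n = r * r ^ (n - 1) := by
        rw [← pow_succ', Nat.sub_add_cancel hn]
      calc C₁ / r * L * ∫ y in closedBall x r, ‖u y‖ ≤ C₁ / r * L * (C * r ^ n) := by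
            gcongr
        _ = C₁ * L * C * r ^ (n - 1) := by
            rw [h4]; field_simp
    have hsm : Integrable (fun y => φ y • σ y) m := by
      refine hφi.norm.mono' (hφi.aestronglyMeasurable.smul hσ.aestronglyMeasurable) ?_
      filter_upwards [hσ1] with y hy
      rw [norm_smul, hy, mul_one]
    have h5 : ∫ y, φ y * (inner ℝ (σ x) (σ y)) ∂m = inner ℝ (σ x) (∫ y, φ y • σ y ∂m) := by
      rw [← integral_inner hsm]
      apply integral_congr_ae
      filter_upwards with y
      rw [real_inner_smul_right]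
    have h6 : ∫ y, φ y * (inner ℝ (σ x) (σ y)) ∂m ≤ C₁ * L * C * r ^ (n - 1) := by
      rw [h5]
      refine (real_inner_le_norm _ _).trans ?_
      rw [hx1, one_mul]
      exact h2
    have hdi : Integrable (fun y => ‖σ y - σ x‖) m := (hσ.sub (integrable_const _)).norm
    have hip : Integrable (fun y => φ y * (inner ℝ (σ x) (σ y) : ℝ)) m := by
      have := (innerSL ℝ (σ x)).integrable_comp hsm
      refine this.congr ?_
      filter_upwards with y
      simp
    -- lower bound for the integrand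
    have h7 : (∫ y in closedBall x (r / 2), (1 : ℝ) ∂m) -
        ∫ y in closedBall x r, ‖σ y - σ x‖ ∂m ≤ ∫ y, φ y * (inner ℝ (σ x) (σ y)) ∂m := by
      rw [← integral_indicator measurableSet_closedBall,
        ← integral_indicator measurableSet_closedBall, ← integral_sub]
      · apply integral_mono_ae
        · exact ((integrable_const _).indicator measurableSet_closedBall).sub
            (hdi.indicator measurableSet_closedBall)
        · exact hip
        · filter_upwards [hσ1] with y hy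
          have hinner : 1 - ‖σ y - σ x‖ ≤ inner ℝ (σ x) (σ y) := by
            have e : σ y = σ x + (σ y - σ x) := by abel
            rw [e, inner_add_right, real_inner_self_eq_norm_sq, hx1]
            have := neg_le_of_abs_le (abs_real_inner_le_norm (σ x) (σ y - σ x))
            rw [hx1, one_mul] at this
            have e2 : σ x + (σ y - σ x) - σ x = σ y - σ x := by abel
            rw [e2]
            linarith
          by_cases hy1 : y ∈ closedBall x (r / 2)
          · have hy2 : y ∈ closedBall x r := closedBall_subset_closedBall (by linarith) hy1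
            simp only [indicator_of_mem hy1, indicator_of_mem hy2, hφe y hy1, one_mul]
            exact hinner
          · simp only [indicator_of_notMem hy1]
            by_cases hy2 : y ∈ closedBall x r
            · simp only [indicator_of_mem hy2]
              have h8 := mul_le_mul_of_nonneg_left hinner (hφ0 y)
              have h9 := mul_le_mul_of_nonneg_right (hφ1 y) (norm_nonneg (σ y - σ x))
              have h10 := hφ0 y
              nlinarith
            · have : φ y = 0 := by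
                apply image_eq_zero_of_notMem_tsupport
                exact fun h => hy2 (hφt h)
              simp [indicator_of_notMem hy2, this]
      · exact (integrable_const _).indicator measurableSet_closedBall
      · exact hdi.indicator measurableSet_closedBall
    have h8 : ∫ y in closedBall x r, ‖σ y - σ x‖ ∂m ≤
        (1 / 2) ^ (n - 1 + 1) * m.real (closedBall x r) := by
      have h9 := hδ' hrδ
      have h9' : ⨍ y in closedBall x r, ‖σ y - σ x‖ ∂m < (1 / 2) ^ (n - 1 + 1) := h9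
      have h10 : m.real (closedBall x r) * ⨍ y in closedBall x r, ‖σ y - σ x‖ ∂m =
          ∫ y in closedBall x r, ‖σ y - σ x‖ ∂m := by
        have := measure_smul_setAverage (μ := m) (fun y => ‖σ y - σ x‖)
          (s := closedBall x r) (measure_ne_top _ _)
        simpa using this
      rw [← h10, mul_comm]
      exact mul_le_mul_of_nonneg_right h9'.le measureReal_nonneg
    have h11 : ∫ y in closedBall x (r / 2), (1 : ℝ) ∂m = m.real (closedBall x (r / 2)) := by
      simp
    linarith)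
  exact ⟨K, min (δ / 2) r₀, by positivity, hK⟩

/-- **Absolute continuity of the jump part.** For every first-order operator `𝓑[D] = ∑ B_j ∂_j`,
every open `Ω ⊆ ℝⁿ`, `n ≥ 2`, and every `u ∈ BV^𝓑(Ω)`, each `ℋ^{n-1}`-null subset of the jump set
is `|𝓑u|`-null. -/
theorem result (hn : 2 ≤ n) (B : Fin n → V →ₗ[ℝ] W) (Ω : Set (EuclideanSpace ℝ (Fin n)))
    (hΩ : IsOpen Ω) (u : EuclideanSpace ℝ (Fin n) → V) (hu : IntegrableOn u Ω)
    (μ : VectorMeasure (EuclideanSpace ℝ (Fin n)) W) [IsFiniteMeasure μ.variation]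
    (hμ : IsDerivative B Ω u μ) (E : Set (EuclideanSpace ℝ (Fin n))) (hE : E ⊆ jumpSet Ω u)
    (hE0 : (Measure.hausdorffMeasure ((n : ℝ) - 1) : Measure (EuclideanSpace ℝ (Fin n))) E = 0) :
    μ.variation E = 0 := by
  have hae := density_bound hΩ hu hμ (by omega)
  set G := {x : EuclideanSpace ℝ (Fin n) | (∃ C r₀ : ℝ, 0 ≤ C ∧ 0 < r₀ ∧ closedBall x r₀ ⊆ Ω ∧
      ∀ r, 0 < r → r ≤ r₀ → ∫ y in closedBall x r, ‖u y‖ ≤ C * r ^ n) →
      ∃ K δ : ℝ, 0 < δ ∧
        ∀ r, 0 < r → r ≤ δ → μ.variation.real (closedBall x r) ≤ K * r ^ (n - 1)} with hG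
  have hGc : μ.variation Gᶜ = 0 := hae
  have h1 : μ.variation (E ∩ G) = 0 := by
    have hn1 : (n : ℝ) - 1 = ((n - 1 : ℕ) : ℝ) := by
      rw [Nat.cast_sub (by omega)]; norm_num
    apply Q76.HausdorffDensity.measure_eq_zero_of_density (d := (n : ℝ) - 1) (E := E ∩ G)
    · rintro x ⟨hxE, hxG⟩
      obtain ⟨K, δ, hδ, hK⟩ := hxG (jump_bound hΩ hu (hE hxE))
      refine ⟨Real.toNNReal K, δ, hδ, fun r hr hrδ => ?_⟩
      have h2 := hK r hr hrδ
      rw [hn1, ENNReal.rpow_natCast, ← ENNReal.ofReal_pow hr.le]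
      rw [← ENNReal.ofReal_toReal (measure_ne_top μ.variation (closedBall x r))]
      calc ENNReal.ofReal (μ.variation (closedBall x r)).toReal
          ≤ ENNReal.ofReal (K * r ^ (n - 1)) := ENNReal.ofReal_le_ofReal h2
        _ ≤ ENNReal.ofReal (K.toNNReal * r ^ (n - 1)) := by
            apply ENNReal.ofReal_le_ofReal
            gcongr
            exact Real.le_coe_toNNReal K
        _ = K.toNNReal * ENNReal.ofReal (r ^ (n - 1)) := by
            rw [ENNReal.ofReal_mul (by positivity), ENNReal.ofReal_coe_nnreal]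
    · exact measure_mono_null inter_subset_left hE0
  have h2 : E ⊆ (E ∩ G) ∪ Gᶜ := by
    intro x hx
    by_cases hxG : x ∈ G
    · exact Or.inl ⟨hx, hxG⟩
    · exact Or.inr hxG
  exact measure_mono_null h2 (measure_union_null h1 hGc)

end Pool.Agent.Results.MP_06111c_an.JumpPartAbsCont
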